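import Mathlib

/-!
Tasks T3 and T4 of helper12's plan for MP_1ad17e_al: computations in the endomorphism ring of an
abelian 2-group.
-/

set_option autoImplicit false

namespace E1ad.helper11

/-! ### odd multiples -/

theorem odd_cancel {A : Type*} [AddCommGroup A] (h2 : ∀ x : A, ∃ k : ℕ, (2 ^ k) • x = 0)
    {c : ℕ} (hc : Odd c) {y : A} (hy : c • y = 0) : y = 0 := by
  obtain ⟨k, hk⟩ := h2 y
  have h1 : addOrderOf y ∣ c := addOrderOf_dvd_of_nsmul_eq_zero hy
  have h3 : addOrderOf y ∣ 2 ^ k := addOrderOf_dvd_of_nsmul_eq_zero hk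
  have h4 : Nat.Coprime c (2 ^ k) := (Nat.Coprime.pow_right k (Nat.coprime_two_right.mpr hc))
  have h5 : addOrderOf y = 1 := Nat.eq_one_of_dvd_coprimes h4 h1 h3
  exact AddMonoid.addOrderOf_eq_one_iff.mp h5

/-! ### the polynomials `e`, `o` -/

/-- `(e_k, o_k)` with `(τ - 1)^k = e_k + τ o_k`, polynomials in `s = τ^2` -/
def eo {R : Type*} [Ring R] (s : R) : ℕ → R × R
  | 0 => (1, 0)
  | k + 1 => (s * (eo s k).2 - (eo s k).1, (eo s k).1 - (eo s k).2)

theorem eo_commute {R : Type*} [Ring R] {s u : R} (h : Commute u s) :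
    ∀ k, Commute u (eo s k).1 ∧ Commute u (eo s k).2 := by
  intro k
  induction k with
  | zero => exact ⟨Commute.one_right u, Commute.zero_right u⟩
  | succ k ih =>
    obtain ⟨h1, h2⟩ := ih
    exact ⟨(h.mul_right h2).sub_right h1, h1.sub_right h2⟩

theorem eo_spec {R : Type*} [Ring R] (τ s : R) (hs : τ * τ = s) :
    ∀ k, (τ - 1) ^ k = (eo s k).1 + τ * (eo s k).2 := by
  have hτ : Commute τ s := by
    rw [← hs]
    exact (Commute.refl τ).mul_right (Commute.refl τ)
  intro k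
  induction k with
  | zero => simp [eo]
  | succ k ih =>
    obtain ⟨h1, h2⟩ := eo_commute hτ k
    rw [pow_succ', ih]
    change (τ - 1) * ((eo s k).1 + τ * (eo s k).2) =
      (s * (eo s k).2 - (eo s k).1) + τ * ((eo s k).1 - (eo s k).2)
    rw [← hs]
    noncomm_ring

theorem two_pow_apply {A : Type*} [AddCommGroup A] {u v : AddMonoid.End A} (huv : Commute u v)
    {n : ℕ} {m : A} (hu : (u ^ n) m = 0) (hv : (v ^ n) m = 0) :
    ((u + v) ^ (2 * n - 1)) m = 0 := by
  have hu' : ∀ i, n ≤ i → (u ^ i) m = 0 := by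
    intro i hi
    obtain ⟨j, rfl⟩ := Nat.exists_eq_add_of_le hi
    rw [Nat.add_comm, pow_add]
    change (u ^ j) ((u ^ n) m) = 0
    rw [hu, map_zero]
  have hv' : ∀ i, n ≤ i → (v ^ i) m = 0 := by
    intro i hi
    obtain ⟨j, rfl⟩ := Nat.exists_eq_add_of_le hi
    rw [Nat.add_comm, pow_add]
    change (v ^ j) ((v ^ n) m) = 0
    rw [hv, map_zero]
  rw [huv.add_pow]
  have happ : ∀ (S : Finset ℕ) (g : ℕ → AddMonoid.End A),
      (∑ i ∈ S, g i) m = ∑ i ∈ S, (g i) m := by
    intro S g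
    exact AddMonoidHom.finsetSum_apply g S m
  rw [happ]
  apply Finset.sum_eq_zero
  intro i hi
  rw [Finset.mem_range] at hi
  have hcomm : u ^ i * v ^ (2 * n - 1 - i) * ((2 * n - 1).choose i : AddMonoid.End A) =
      ((2 * n - 1).choose i : AddMonoid.End A) * (u ^ i * v ^ (2 * n - 1 - i)) :=
    (Nat.cast_commute _ _).symm.eq
  rw [hcomm]
  change ((2 * n - 1).choose i : AddMonoid.End A) ((u ^ i * v ^ (2 * n - 1 - i)) m) = 0
  have h0 : (u ^ i * v ^ (2 * n - 1 - i)) m = 0 := by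
    by_cases h : n ≤ i
    · rw [(huv.pow_pow i (2 * n - 1 - i)).eq]
      change (v ^ (2 * n - 1 - i)) ((u ^ i) m) = 0
      rw [hu' i h, map_zero]
    · change (u ^ i) ((v ^ (2 * n - 1 - i)) m) = 0
      rw [hv' _ (by omega), map_zero]
  rw [h0, map_zero]

theorem twoPowFix {A : Type*} [AddCommGroup A] (h2 : ∀ x : A, ∃ k : ℕ, (2 ^ k) • x = 0)
    (n c : ℕ) (hn : 1 ≤ n) (hc : Odd c) (τ ρ σ : AddMonoid.End A) (hρσ : ρ * σ = 1)
    (hσρ : σ * ρ = 1) (hρc : ρ ^ c = 1) (hτ : (τ - 1) ^ n = 0) (hτρ : τ * ρ = σ * τ) (x : A) :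
    (2 ^ (2 * n - 1)) • ρ x = (2 ^ (2 * n - 1)) • x := by
  -- basic relations
  have hρτ : ρ * τ = τ * σ := by
    calc ρ * τ = ρ * τ * (ρ * σ) := by rw [hρσ, mul_one]
      _ = ρ * (τ * ρ) * σ := by noncomm_ring
      _ = (ρ * σ) * τ * σ := by rw [hτρ]; noncomm_ring
      _ = τ * σ := by rw [hρσ, one_mul]
  set s : AddMonoid.End A := τ * τ with hs
  have hsρ : Commute ρ s := by
    change ρ * s = s * ρ
    rw [hs]
    calc ρ * (τ * τ) = (ρ * τ) * τ := by noncomm_ring
      _ = τ * (σ * τ) := by rw [hρτ]; noncomm_ring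
      _ = τ * τ * ρ := by rw [← hτρ]; noncomm_ring
  have hsτ : Commute τ s := (Commute.refl τ).mul_right (Commute.refl τ)
  set τ1 : AddMonoid.End A := σ * τ * ρ with hτ1
  have hτ1s : τ1 * τ1 = s := by
    calc τ1 * τ1 = σ * τ * (ρ * σ) * τ * ρ := by rw [hτ1]; noncomm_ring
      _ = σ * (s * ρ) := by rw [hρσ, hs]; noncomm_ring
      _ = (σ * ρ) * s := by rw [← hsρ.eq]; noncomm_ring
      _ = s := by rw [hσρ, one_mul]
  have hτ1n : (τ1 - 1) ^ n = 0 := by
    have : ∀ k, (τ1 - 1) ^ k = σ * (τ - 1) ^ k * ρ := by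
      intro k
      induction k with
      | zero => rw [pow_zero, pow_zero, mul_one, hσρ]
      | succ k ih =>
        have h1 : τ1 - 1 = σ * (τ - 1) * ρ := by
          rw [hτ1, mul_sub, sub_mul, mul_one, hσρ]
        rw [pow_succ, ih, h1, pow_succ]
        calc σ * (τ - 1) ^ k * ρ * (σ * (τ - 1) * ρ)
            = σ * (τ - 1) ^ k * (ρ * σ) * (τ - 1) * ρ := by noncomm_ring
          _ = σ * ((τ - 1) ^ k * (τ - 1)) * ρ := by rw [hρσ]; noncomm_ring
    rw [this, hτ, mul_zero, zero_mul]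
  set e := (eo s n).1 with he
  set o := (eo s n).2 with ho
  have h1 : e + τ * o = 0 := by rw [← hτ, eo_spec τ s rfl n]
  have h1' : e + τ1 * o = 0 := by rw [← hτ1n, eo_spec τ1 s hτ1s n]
  have hτunit : IsUnit τ := by
    have h3 : IsNilpotent (τ - 1) := ⟨n, hτ⟩
    have h4 := h3.isUnit_add_one
    rwa [sub_add_cancel] at h4
  have hτ1' : τ1 = τ * ρ * ρ := by rw [hτ1, hτρ]
  have h5 : ρ * ρ * o = o := by
    have h6 : τ * (ρ * ρ * o - o) = 0 := by
      have : τ1 * o - τ * o = 0 := by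
        have h7 : τ1 * o = -e := by
          rw [eq_neg_iff_add_eq_zero, add_comm]
          exact h1'
        have h8 : τ * o = -e := by
          rw [eq_neg_iff_add_eq_zero, add_comm]
          exact h1
        rw [h7, h8, sub_self]
      rw [hτ1'] at this
      rw [← this]
      noncomm_ring
    have h7 := (hτunit.mul_right_eq_zero).mp h6
    exact sub_eq_zero.mp h7
  have h8 : ρ * o = o := by
    obtain ⟨d, hd⟩ := hc
    have h9 : ∀ i, (ρ * ρ) ^ i * o = o := by
      intro i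
      induction i with
      | zero => rw [pow_zero, one_mul]
      | succ i ih => rw [pow_succ, mul_assoc, h5, ih]
    have h10 : ρ * (ρ * ρ) ^ d = 1 := by
      rw [← hρc, hd, ← pow_two, ← pow_mul, pow_succ']
    calc ρ * o = ρ * ((ρ * ρ) ^ d * o) := by rw [h9 d]
      _ = (ρ * (ρ * ρ) ^ d) * o := by rw [mul_assoc]
      _ = o := by rw [h10, one_mul]
  have hoρ : Commute ρ o := (eo_commute hsρ n).2
  have hoτ : Commute τ o := (eo_commute hsτ n).2
  -- the norm
  set N : AddMonoid.End A := ∑ k ∈ Finset.range c, ρ ^ k with hN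
  have hρN : ρ * N = N := by
    have h11 : (ρ - 1) * N = ρ ^ c - 1 := mul_geom_sum ρ c
    rw [hρc, sub_self, sub_mul, one_mul] at h11
    exact sub_eq_zero.mp h11
  have hoN : o * N = c • o := by
    have h12 : ∀ k, o * ρ ^ k = o := by
      intro k
      induction k with
      | zero => rw [pow_zero, mul_one]
      | succ k ih => rw [pow_succ, ← mul_assoc, ih, ← hoρ.eq, h8]
    rw [hN, Finset.mul_sum, Finset.sum_congr rfl (fun k _ => h12 k), Finset.sum_const,
      Finset.card_range]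
  have hNN : N * N = c • N := by
    have h12 : ∀ k, ρ ^ k * N = N := by
      intro k
      induction k with
      | zero => rw [pow_zero, one_mul]
      | succ k ih => rw [pow_succ, mul_assoc, hρN, ih]
    nth_rewrite 1 [hN]
    rw [Finset.sum_mul, Finset.sum_congr rfl (fun k _ => h12 k), Finset.sum_const,
      Finset.card_range]
  -- elements of norm zero
  have key : ∀ m : A, N m = 0 → (2 ^ (2 * n - 1)) • m = 0 := by
    intro m hm
    have hom : o m = 0 := by
      apply odd_cancel h2 hc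
      have h13 : (o * N) m = (c • o) m := by rw [hoN]
      have h14 : (o * N) m = o (N m) := rfl
      rw [h14, hm, map_zero] at h13
      have h15 : (c • o) m = c • (o m) := rfl
      rw [h15] at h13
      exact h13.symm
    have hem : e m = 0 := by
      have h13 : (e + τ * o) m = 0 := by rw [h1]; rfl
      have h14 : (e + τ * o) m = e m + τ (o m) := rfl
      rw [h14, hom, map_zero, add_zero] at h13
      exact h13
    have hplus : ((τ + 1) ^ n) m = 0 := by
      have h15 : (-τ) * (-τ) = s := by rw [neg_mul_neg]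
      have h16 := eo_spec (-τ) s h15 n
      have h17 : (-τ - 1) ^ n = (-1) ^ n * (τ + 1) ^ n := by
        have : -τ - 1 = (-1 : AddMonoid.End A) * (τ + 1) := by noncomm_ring
        rw [this]
        exact (Commute.neg_one_left (τ + 1)).mul_pow n
      have h18 : ((-τ - 1) ^ n) m = 0 := by
        rw [h16]
        have h19 : ((eo s n).1 + -τ * (eo s n).2) m = e m + (-τ) (o m) := rfl
        rw [h19, hem, hom, map_zero, add_zero]
      rw [h17] at h18
      rcases neg_one_pow_eq_or (AddMonoid.End A) n with h20 | h20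
      · rw [h20, one_mul] at h18
        exact h18
      · rw [h20, neg_one_mul] at h18
        have h21 : (-(τ + 1) ^ n) m = - (((τ + 1) ^ n) m) := rfl
        rw [h21, neg_eq_zero] at h18
        exact h18
    have hminus : ((-(τ - 1)) ^ n) m = 0 := by
      rw [neg_pow, hτ, mul_zero]
      rfl
    have hcm : Commute (τ + 1) (-(τ - 1)) := by
      apply Commute.neg_right
      exact ((Commute.refl τ).add_left (Commute.one_left τ)).sub_right (Commute.one_right _)
    have h22 := two_pow_apply hcm hplus hminus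
    have h23 : (τ + 1) + -(τ - 1) = ((2 : ℕ) : AddMonoid.End A) := by
      have h230 : (τ + 1) + -(τ - 1) = 1 + 1 := by abel
      rw [h230, Nat.cast_ofNat, one_add_one_eq_two]
    rw [h23, ← Nat.cast_pow] at h22
    have h24 : (((2 ^ (2 * n - 1) : ℕ) : AddMonoid.End A)) m = (2 ^ (2 * n - 1)) • m :=
      AddMonoid.End.natCast_apply _ _
    rw [h24] at h22
    exact h22
  -- general elements
  have h25 : N (c • x - N x) = 0 := by
    rw [map_sub, map_nsmul]
    have h26 : N (N x) = (N * N) x := rfl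
    rw [h26, hNN]
    have h27 : (c • N) x = c • N x := rfl
    rw [h27, sub_self]
  have h28 := key _ h25
  rw [smul_sub, sub_eq_zero] at h28
  have h29 : ρ (N x) = N x := by
    have : (ρ * N) x = N x := by rw [hρN]
    exact this
  have h30 : c • ((2 ^ (2 * n - 1)) • ρ x - (2 ^ (2 * n - 1)) • x) = 0 := by
    have h31 : c • ((2 ^ (2 * n - 1)) • x) = (2 ^ (2 * n - 1)) • N x := by
      rw [← h28, smul_comm]
    have h32 : c • ((2 ^ (2 * n - 1)) • ρ x) = (2 ^ (2 * n - 1)) • N x := by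
      have h33 := congrArg ρ h31
      rw [map_nsmul, map_nsmul, map_nsmul, h29] at h33
      exact h33
    rw [smul_sub, h31, h32, sub_self]
  exact sub_eq_zero.mp (odd_cancel h2 hc h30)

/-! ### T4 -/

theorem one_add_pow_two_pow {R : Type*} [Ring R] (v : R) (j : ℕ) :
    ∃ Y : R, Commute v Y ∧ (1 + v) ^ (2 ^ j) = 1 + v ^ (2 ^ j) + 2 * Y := by
  induction j with
  | zero => exact ⟨0, Commute.zero_right v, by simp⟩
  | succ j ih =>
    obtain ⟨Y, hY, h⟩ := ih
    set w := v ^ (2 ^ j) with hw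
    have hwY : Commute w Y := hY.pow_left _
    have hvw : Commute v w := (Commute.refl v).pow_right _
    refine ⟨w + 2 * Y * (1 + w) + 2 * (Y * Y), ?_, ?_⟩
    · have h2 : Commute v (2 : R) := (Nat.cast_commute 2 v).symm
      exact (hvw.add_right ((h2.mul_right hY).mul_right ((Commute.one_right v).add_right hvw))).add_right
        (h2.mul_right (hY.mul_right hY))
    · rw [pow_succ, pow_mul, h, pow_mul, ← hw]
      have h3 : (2 : R) * Y = Y * 2 := (Nat.cast_commute 2 Y).eq
      have h4 : w * Y = Y * w := hwY.eq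
      have h5 : (1 + w + 2 * Y) ^ 2 = 1 + w ^ 2 + (w + w) + (Y * 2 + w * (2 * Y) + 2 * Y + 2 * Y * w
          + 2 * Y * (2 * Y)) := by
        rw [← h3]
        noncomm_ring
      rw [h5]
      have h6 : w * (2 * Y) = 2 * (Y * w) := by
        have c2 : w * 2 = 2 * w := by exact_mod_cast (Nat.cast_commute 2 w).symm.eq
        rw [← mul_assoc, c2, mul_assoc, h4]
      rw [h6, ← h3]
      noncomm_ring

theorem pow_two_pow_eq {R : Type*} [Ring R] {χ : R} {n j : ℕ} (h : (χ - 1) ^ n = 0)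
    (hj : n ≤ 2 ^ j) : ∃ Y : R, χ ^ (2 ^ j) = 1 + 2 * Y := by
  obtain ⟨Y, _, hY⟩ := one_add_pow_two_pow (χ - 1) j
  rw [add_sub_cancel, pow_eq_zero_of_le hj h, add_zero] at hY
  exact ⟨Y, hY⟩

theorem powEq {R : Type*} [Ring R] (n L a : ℕ) (hL : n ≤ 2 ^ L) (χ χ' : R)
    (h : (χ - 1) ^ n = 0) (h' : (χ' - 1) ^ n = 0) (ha : (2 : R) ^ a * (χ' - χ) = 0) :
    χ' ^ (2 ^ (L + a)) = χ ^ (2 ^ (L + a)) := by
  have hcomm : ∀ z : R, Commute ((2 : R) ^ a) z := by
    intro z
    have : Commute (2 : R) z := by exact_mod_cast Nat.cast_commute 2 z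
    exact this.pow_left a
  have hstep : ∀ j, χ' ^ (2 ^ (j + 1)) - χ ^ (2 ^ (j + 1)) =
      χ' ^ (2 ^ j) * (χ' ^ (2 ^ j) - χ ^ (2 ^ j)) + (χ' ^ (2 ^ j) - χ ^ (2 ^ j)) * χ ^ (2 ^ j) := by
    intro j
    rw [pow_succ 2 j, pow_mul, pow_mul, pow_two, pow_two]
    noncomm_ring
  have hd : ∀ j, (2 : R) ^ a * (χ' ^ (2 ^ j) - χ ^ (2 ^ j)) = 0 := by
    intro j
    induction j with
    | zero => simpa using ha
    | succ j ih =>
      rw [hstep, mul_add, ← mul_assoc, (hcomm (χ' ^ (2 ^ j))).eq, mul_assoc, ih, mul_zero,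
        ← mul_assoc, ih, zero_mul, add_zero]
  have hi : ∀ i, ∃ ε : R, χ' ^ (2 ^ (L + i)) - χ ^ (2 ^ (L + i)) = 2 ^ i * ε ∧ 2 ^ a * ε = 0 := by
    intro i
    induction i with
    | zero => exact ⟨_, by rw [pow_zero, one_mul], hd (L + 0)⟩
    | succ i ih =>
      obtain ⟨ε, h1, h2⟩ := ih
      have hLi : n ≤ 2 ^ (L + i) := hL.trans (Nat.pow_le_pow_right (by norm_num) (by omega))
      obtain ⟨Y, hY⟩ := pow_two_pow_eq h hLi
      obtain ⟨Y', hY'⟩ := pow_two_pow_eq h' hLi
      refine ⟨ε + Y' * ε + ε * Y, ?_, ?_⟩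
      · rw [← Nat.add_assoc, hstep, h1, hY, hY']
        have c1 : ∀ z : R, Commute ((2 : R) ^ i) z := by
          intro z
          have : Commute (2 : R) z := by exact_mod_cast Nat.cast_commute 2 z
          exact this.pow_left i
        have c2 : ∀ z : R, (2 : R) * z = z * 2 := by
          intro z
          exact_mod_cast (Nat.cast_commute 2 z).eq
        have e1 : (1 + 2 * Y') * (2 ^ i * ε) = 2 ^ i * ε + 2 ^ i * 2 * (Y' * ε) := by
          rw [add_mul, one_mul, mul_assoc 2 Y', ← mul_assoc Y', ← (c1 Y').eq, mul_assoc (2 ^ i) Y',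
            ← mul_assoc 2, c2 (2 ^ i)]
        have e2 : 2 ^ i * ε * (1 + 2 * Y) = 2 ^ i * ε + 2 ^ i * 2 * (ε * Y) := by
          rw [mul_add, mul_one, ← mul_assoc (2 ^ i * ε) 2, mul_assoc (2 ^ i) ε 2, ← c2 ε]
          noncomm_ring
        rw [e1, e2, pow_succ]
        noncomm_ring
      · rw [mul_add, mul_add, h2, ← mul_assoc, (hcomm Y').eq, mul_assoc, h2, ← mul_assoc, h2]
        simp
  obtain ⟨ε, h1, h2⟩ := hi a
  rw [h2] at h1
  exact sub_eq_zero.mp h1

theorem seqKill {A : Type*} [AddCommGroup A] (n L a : ℕ) (hL : n ≤ 2 ^ L) (η : AddMonoid.End A)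
    (h : (η - 1) ^ n = 0) (f : ℕ → A) (hf : ∀ j, f (j + 1) = f j + (η ^ (2 ^ j)) (f j))
    (h0 : (2 ^ a) • f 0 = 0) : f (L + a) = 0 := by
  have hj : ∀ j, (2 ^ a) • f j = 0 := by
    intro j
    induction j with
    | zero => exact h0
    | succ j ih => rw [hf, smul_add, ih, ← map_nsmul, ih, map_zero, add_zero]
  have hi : ∀ i, ∃ g : A, f (L + i) = (2 ^ i) • g ∧ (2 ^ a) • g = 0 := by
    intro i
    induction i with
    | zero => exact ⟨f (L + 0), by rw [pow_zero, one_smul], hj _⟩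
    | succ i ih =>
      obtain ⟨g, h1, h2⟩ := ih
      have hLi : n ≤ 2 ^ (L + i) := hL.trans (Nat.pow_le_pow_right (by norm_num) (by omega))
      obtain ⟨Y, hY⟩ := pow_two_pow_eq h hLi
      refine ⟨g + Y g, ?_, ?_⟩
      · rw [← Nat.add_assoc, hf, h1, hY]
        have e1 : (1 + 2 * Y : AddMonoid.End A) ((2 ^ i) • g) =
            (2 ^ i) • g + ((2 : ℕ) • Y ((2 ^ i) • g)) := by
          have e2 : (1 + 2 * Y : AddMonoid.End A) = 1 + (2 : ℕ) • Y := by
            rw [nsmul_eq_mul]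
            norm_cast
          rw [e2]
          rfl
        rw [e1, map_nsmul, pow_succ, mul_smul, smul_add, smul_add, smul_comm (2 ^ i) 2 g,
          smul_comm (2 ^ i) 2 (Y g), two_smul ℕ ((2 ^ i) • g)]
        abel
      · rw [smul_add, h2, ← map_nsmul, h2, map_zero, add_zero]
  obtain ⟨g, h1, h2⟩ := hi a
  rw [h1, h2]

end E1ad.helper11
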