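import Mathlib

/-!
Task T5 of helper12's plan for MP_1ad17e_al: a critical subgroup, invariant under a larger group.
-/

set_option autoImplicit false

namespace E1ad.helper11

open Subgroup
open scoped commutatorElement

section crit

variable {G : Type*} [Group G]

theorem comm_mul_left (k k' q : G) : ⁅k * k', q⁆ = k * ⁅k', q⁆ * k⁻¹ * ⁅k, q⁆ := by
  simp only [commutatorElement_def]
  group

theorem comm_mul_right (k r r' : G) : ⁅k, r * r'⁆ = ⁅k, r⁆ * (r * ⁅k, r'⁆ * r⁻¹) := by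
  simp only [commutatorElement_def]
  group

/-- elements of `Q` centralising `A` and with `[y, Q] ≤ A` -/
def critL (Q A : Subgroup G) (hA : ∀ q ∈ Q, ∀ x ∈ A, q * x * q⁻¹ ∈ A) : Subgroup G where
  carrier := {y | y ∈ Q ∧ (∀ x ∈ A, y * x = x * y) ∧ ∀ q ∈ Q, ⁅y, q⁆ ∈ A}
  mul_mem' := by
    rintro a b ⟨ha1, ha2, ha3⟩ ⟨hb1, hb2, hb3⟩
    refine ⟨Q.mul_mem ha1 hb1, ?_, ?_⟩
    · intro x hx
      rw [mul_assoc, hb2 x hx, ← mul_assoc, ha2 x hx, mul_assoc]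
    · intro q hq
      rw [comm_mul_left]
      exact A.mul_mem (hA a ha1 _ (hb3 q hq)) (ha3 q hq)
  one_mem' := ⟨Q.one_mem, fun x _ => by rw [one_mul, mul_one], fun q _ => by
    rw [commutatorElement_one_left]; exact A.one_mem⟩
  inv_mem' := by
    rintro a ⟨ha1, ha2, ha3⟩
    refine ⟨Q.inv_mem ha1, ?_, ?_⟩
    · intro x hx
      have := ha2 x hx
      rw [inv_mul_eq_iff_eq_mul, ← mul_assoc, this, mul_assoc, mul_inv_cancel, mul_one]
    · intro q hq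
      have e : ⁅a⁻¹, q⁆ = a⁻¹ * ⁅a, q⁆⁻¹ * a⁻¹⁻¹ := by
        simp only [commutatorElement_def]
        group
      rw [e]
      exact hA _ (Q.inv_mem ha1) _ (A.inv_mem (ha3 q hq))

theorem mem_critL {Q A : Subgroup G} {hA : ∀ q ∈ Q, ∀ x ∈ A, q * x * q⁻¹ ∈ A} {y : G} :
    y ∈ critL Q A hA ↔ y ∈ Q ∧ (∀ x ∈ A, y * x = x * y) ∧ ∀ q ∈ Q, ⁅y, q⁆ ∈ A := Iff.rfl

/-- elements of `critL` whose square is in `A` -/
def critK (Q A : Subgroup G) (hA : ∀ q ∈ Q, ∀ x ∈ A, q * x * q⁻¹ ∈ A) : Subgroup G where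
  carrier := {y | y ∈ critL Q A hA ∧ y ^ 2 ∈ A}
  mul_mem' := by
    rintro a b ⟨ha, ha2⟩ ⟨hb, hb2⟩
    refine ⟨(critL Q A hA).mul_mem ha hb, ?_⟩
    have e : (a * b) ^ 2 = a * ⁅b, a⁆ * a⁻¹ * (a ^ 2 * b ^ 2) := by
      simp only [commutatorElement_def, pow_two]
      group
    rw [e]
    exact A.mul_mem (hA a ha.1 _ (hb.2.2 a ha.1)) (A.mul_mem ha2 hb2)
  one_mem' := ⟨(critL Q A hA).one_mem, by rw [one_pow]; exact A.one_mem⟩
  inv_mem' := by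
    rintro a ⟨ha, ha2⟩
    refine ⟨(critL Q A hA).inv_mem ha, ?_⟩
    rw [inv_pow]
    exact A.inv_mem ha2

theorem mem_critK {Q A : Subgroup G} {hA : ∀ q ∈ Q, ∀ x ∈ A, q * x * q⁻¹ ∈ A} {y : G} :
    y ∈ critK Q A hA ↔ y ∈ critL Q A hA ∧ y ^ 2 ∈ A := Iff.rfl

/-- the centraliser in `Q` of `K` -/
def critY (Q K : Subgroup G) : Subgroup G where
  carrier := {y | y ∈ Q ∧ ∀ k ∈ K, y * k = k * y}
  mul_mem' := by
    rintro a b ⟨ha1, ha2⟩ ⟨hb1, hb2⟩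
    refine ⟨Q.mul_mem ha1 hb1, ?_⟩
    intro x hx
    rw [mul_assoc, hb2 x hx, ← mul_assoc, ha2 x hx, mul_assoc]
  one_mem' := ⟨Q.one_mem, fun x _ => by rw [one_mul, mul_one]⟩
  inv_mem' := by
    rintro a ⟨ha1, ha2⟩
    refine ⟨Q.inv_mem ha1, ?_⟩
    intro x hx
    have := ha2 x hx
    rw [inv_mul_eq_iff_eq_mul, ← mul_assoc, this, mul_assoc, mul_inv_cancel, mul_one]

theorem mem_critY {Q K : Subgroup G} {y : G} :
    y ∈ critY Q K ↔ y ∈ Q ∧ ∀ k ∈ K, y * k = k * y := Iff.rfl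

/-- in a finite 2-group, a normal subgroup `Y` not inside `A` contains an element outside `A`
which is central modulo `A` -/
theorem exists_central (Q A Y : Subgroup G) [Finite Q] (hQ : IsPGroup 2 Q) (hYQ : Y ≤ Q)
    (hYn : ∀ q ∈ Q, ∀ y ∈ Y, q * y * q⁻¹ ∈ Y) (hYA : ¬ Y ≤ A) :
    ∃ y ∈ Y, y ∉ A ∧ ∀ q ∈ Q, ⁅y, q⁆ ∈ A := by
  classical
  have : Fact (Nat.Prime 2) := ⟨Nat.prime_two⟩
  have : Group.IsNilpotent Q := hQ.isNilpotent
  obtain ⟨n, hn⟩ := Group.IsNilpotent.nilpotent Q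
  have hex : ∃ i, ∃ y : Q, y ∈ Subgroup.upperCentralSeries Q i ∧ y.1 ∈ Y ∧ y.1 ∉ A := by
    obtain ⟨y, hy, hyA⟩ := Set.not_subset.mp hYA
    exact ⟨n, ⟨y, hYQ hy⟩, by rw [hn]; exact Subgroup.mem_top _, hy, hyA⟩
  obtain ⟨y, hy, hyY, hyA⟩ := Nat.find_spec hex
  have hmin := fun m hm => Nat.find_min hex (m := m) hm
  have h0 : Nat.find hex ≠ 0 := by
    intro h0
    rw [h0, Subgroup.upperCentralSeries_zero, Subgroup.mem_bot] at hy
    apply hyA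
    rw [hy]
    exact A.one_mem
  obtain ⟨i, hi⟩ := Nat.exists_eq_succ_of_ne_zero h0
  refine ⟨y.1, hyY, hyA, ?_⟩
  intro q hq
  by_contra hc
  apply hmin i (by omega)
  refine ⟨⁅y, ⟨q, hq⟩⁆, ?_, ?_, ?_⟩
  · rw [hi] at hy
    exact Subgroup.mem_upperCentralSeries_succ_iff.mp hy ⟨q, hq⟩
  · change y.1 * q * y.1⁻¹ * q⁻¹ ∈ Y
    have e : y.1 * q * y.1⁻¹ * q⁻¹ = y.1 * (q * y.1⁻¹ * q⁻¹) := by group
    rw [e]
    exact Y.mul_mem hyY (hYn q hq _ (Y.inv_mem hyY))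
  · exact hc

theorem crit (Q D : Subgroup G) [Finite Q] (hQ : IsPGroup 2 Q)
    (hQD : Q ≤ D) (hD : ∀ d ∈ D, ∀ q ∈ Q, d * q * d⁻¹ ∈ Q) :
    ∃ A : Subgroup G, A ≤ Q ∧ (∀ x ∈ A, ∀ y ∈ A, x * y = y * x) ∧
      (∀ d ∈ D, ∀ x ∈ A, d * x * d⁻¹ ∈ A) ∧
      (∀ r ∈ Q, ∀ r' ∈ Q, (∀ x ∈ A, r * x = x * r) → (∀ x ∈ A, r' * x = x * r') →
        r ^ 2 ∈ A ∧ ⁅r, r'⁆ ∈ A) := by
  classical
  let P : Subgroup G → Prop := fun A => A ≤ Q ∧ (∀ x ∈ A, ∀ y ∈ A, x * y = y * x) ∧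
      (∀ d ∈ D, ∀ x ∈ A, d * x * d⁻¹ ∈ A)
  have hcard : ∀ A : Subgroup G, A ≤ Q → Nat.card A ≤ Nat.card Q := by
    intro A hA
    exact Nat.card_le_card_of_injective (Subgroup.inclusion hA) (Subgroup.inclusion_injective hA)
  let S : Set ℕ := {n | ∃ A, P A ∧ Nat.card A = n}
  have hSne : S.Nonempty := ⟨Nat.card (⊥ : Subgroup G), ⊥, ⟨bot_le, by
      intro x hx y hy
      rw [Subgroup.mem_bot] at hx hy
      rw [hx, hy], by
      intro d _ x hx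
      rw [Subgroup.mem_bot] at hx ⊢
      rw [hx]
      group⟩, rfl⟩
  have hSb : BddAbove S := ⟨Nat.card Q, by
    rintro n ⟨A, hA, rfl⟩
    exact hcard A hA.1⟩
  obtain ⟨A, hPA, hAc⟩ := Nat.sSup_mem hSne hSb
  have hmax : ∀ A', P A' → A ≤ A' → A' ≤ A := by
    intro A' hA' hle
    have h1 : Nat.card A' ≤ Nat.card A := by
      rw [hAc]
      exact le_csSup hSb ⟨A', hA', rfl⟩
    have : Finite A' := Finite.of_injective _ (Subgroup.inclusion_injective hA'.1)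
    exact (Subgroup.eq_of_le_of_card_ge hle h1).ge
  obtain ⟨hAQ, hAab, hAD⟩ := hPA
  have hA : ∀ q ∈ Q, ∀ x ∈ A, q * x * q⁻¹ ∈ A := fun q hq x hx => hAD q (hQD hq) x hx
  -- `A ≤ K`
  have hAK : A ≤ critK Q A hA := by
    intro x hx
    refine ⟨⟨hAQ hx, fun y hy => hAab x hx y hy, ?_⟩, A.pow_mem hx 2⟩
    intro q hq
    have e : ⁅x, q⁆ = x * (q * x⁻¹ * q⁻¹) := by
      rw [commutatorElement_def]
      group
    rw [e]
    exact A.mul_mem hx (hA q hq _ (A.inv_mem hx))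
  set K := critK Q A hA with hKdef
  set Y := critY Q K with hYdef
  have hYR : ∀ y ∈ Y, ∀ x ∈ A, y * x = x * y := fun y hy x hx => hy.2 x (hAK hx)
  have hKD : ∀ d ∈ D, ∀ k ∈ K, d * k * d⁻¹ ∈ K := by
    rintro d hd k ⟨⟨hk1, hk2, hk3⟩, hk4⟩
    refine ⟨⟨hD d hd k hk1, ?_, ?_⟩, ?_⟩
    · intro x hx
      have h1 := hk2 (d⁻¹ * x * d⁻¹⁻¹) (hAD _ (D.inv_mem hd) x hx)
      have h2 : d * (k * (d⁻¹ * x * d⁻¹⁻¹)) * d⁻¹ = d * ((d⁻¹ * x * d⁻¹⁻¹) * k) * d⁻¹ := by rw [h1]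
      calc d * k * d⁻¹ * x = d * (k * (d⁻¹ * x * d⁻¹⁻¹)) * d⁻¹ := by group
        _ = d * ((d⁻¹ * x * d⁻¹⁻¹) * k) * d⁻¹ := h2
        _ = x * (d * k * d⁻¹) := by group
    · intro q hq
      have h1 := hk3 (d⁻¹ * q * d⁻¹⁻¹) (hD _ (D.inv_mem hd) q hq)
      have e : ⁅d * k * d⁻¹, q⁆ = d * ⁅k, d⁻¹ * q * d⁻¹⁻¹⁆ * d⁻¹ := by
        simp only [commutatorElement_def]
        group
      rw [e]
      exact hAD d hd _ h1
    · have e : (d * k * d⁻¹) ^ 2 = d * k ^ 2 * d⁻¹ := by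
        simp only [pow_two]
        group
      rw [e]
      exact hAD d hd _ hk4
  have hYD : ∀ d ∈ D, ∀ y ∈ Y, d * y * d⁻¹ ∈ Y := by
    rintro d hd y ⟨hy1, hy2⟩
    refine ⟨hD d hd y hy1, ?_⟩
    intro k hk
    have h1 := hy2 (d⁻¹ * k * d⁻¹⁻¹) (hKD _ (D.inv_mem hd) k hk)
    have h2 : d * (y * (d⁻¹ * k * d⁻¹⁻¹)) * d⁻¹ = d * ((d⁻¹ * k * d⁻¹⁻¹) * y) * d⁻¹ := by rw [h1]
    calc d * y * d⁻¹ * k = d * (y * (d⁻¹ * k * d⁻¹⁻¹)) * d⁻¹ := by group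
      _ = d * ((d⁻¹ * k * d⁻¹⁻¹) * y) * d⁻¹ := h2
      _ = k * (d * y * d⁻¹) := by group
  have hAY : A ≤ Y := by
    intro x hx
    exact ⟨hAQ hx, fun k hk => (hk.1.2.1 x hx).symm⟩
  -- `C_Q(K) ≤ A`
  have hYA : Y ≤ A := by
    by_contra hcon
    obtain ⟨y, hyY, hyA, hyq⟩ := exists_central Q A Y hQ (fun y hy => hy.1)
      (fun q hq y hy => hYD q (hQD hq) y hy) hcon
    have hyL : y ∈ critL Q A hA := ⟨hyY.1, hYR y hyY, hyq⟩
    have hpow : ∃ k, y ^ (2 ^ k) ∈ A := by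
      obtain ⟨k, hk⟩ := hQ ⟨y, hyY.1⟩
      refine ⟨k, ?_⟩
      have : y ^ (2 ^ k) = 1 := congrArg Subtype.val hk
      rw [this]
      exact A.one_mem
    have hspec := Nat.find_spec hpow
    have h0 : Nat.find hpow ≠ 0 := by
      intro h0
      rw [h0, pow_zero, pow_one] at hspec
      exact hyA hspec
    obtain ⟨j, hj⟩ := Nat.exists_eq_succ_of_ne_zero h0
    have hzA : y ^ (2 ^ j) ∉ A := Nat.find_min hpow (by omega)
    have hz2 : (y ^ (2 ^ j)) ^ 2 ∈ A := by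
      rw [← pow_mul, ← pow_succ]
      rw [hj] at hspec
      exact hspec
    have hzK : y ^ (2 ^ j) ∈ K := ⟨(critL Q A hA).pow_mem hyL _, hz2⟩
    have hzY : y ^ (2 ^ j) ∈ Y := Y.pow_mem hyY _
    apply hzA
    apply hmax (K ⊓ Y) ⟨fun x hx => hx.2.1, ?_, ?_⟩ (le_inf hAK hAY)
    · exact ⟨hzK, hzY⟩
    · intro a ha b hb
      exact ha.2.2 b hb.1
    · intro d hd x hx
      exact ⟨hKD d hd x hx.1, hYD d hd x hx.2⟩
  refine ⟨A, hAQ, hAab, hAD, ?_⟩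
  intro r hr r' hr' hrA hr'A
  -- `k r k⁻¹ = ⁅k, r⁆ r`
  have hrk : ∀ k ∈ K, ∀ s ∈ Q, ⁅k, s⁆ ∈ A := fun k hk s hs => hk.1.2.2 s hs
  constructor
  · apply hYA
    refine ⟨Q.pow_mem hr 2, ?_⟩
    intro k hk
    have h1 := hrk k hk r hr
    -- `⁅k^2, r⁆ = 1`
    have h2 : ⁅k ^ 2, r⁆ = 1 := by
      rw [commutatorElement_eq_one_iff_mul_comm]
      exact (hrA _ hk.2).symm
    have h3 : ⁅k ^ 2, r⁆ = ⁅k, r⁆ * ⁅k, r⁆ := by
      rw [pow_two, comm_mul_left, hk.1.2.1 _ h1, mul_assoc _ k, mul_inv_cancel, mul_one]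
    have h4 : ⁅k, r ^ 2⁆ = ⁅k, r⁆ * ⁅k, r⁆ := by
      rw [pow_two, comm_mul_right, hrA _ h1, mul_assoc _ r, mul_inv_cancel, mul_one]
    rw [← h3, h2, commutatorElement_eq_one_iff_mul_comm] at h4
    exact h4.symm
  · apply hYA
    refine ⟨?_, ?_⟩
    · rw [commutatorElement_def]
      exact Q.mul_mem (Q.mul_mem (Q.mul_mem hr hr') (Q.inv_mem hr)) (Q.inv_mem hr')
    intro k hk
    have h1 := hrk k hk r hr
    have h2 := hrk k hk r' hr'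
    set a := ⁅k, r⁆ with ha
    set a' := ⁅k, r'⁆ with ha'
    have e1 : k * r * k⁻¹ = a * r := by
      rw [ha, commutatorElement_def]
      group
    have e2 : k * r' * k⁻¹ = a' * r' := by
      rw [ha', commutatorElement_def]
      group
    have c1 : Commute r a := hrA a h1
    have c2 : Commute r a' := hrA a' h2
    have c3 : Commute r' a := hr'A a h1
    have c4 : Commute r' a' := hr'A a' h2
    have c5 : Commute a a' := hAab a h1 a' h2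
    have e3 : k * ⁅r, r'⁆ * k⁻¹ = ⁅a * r, a' * r'⁆ := by
      rw [← e1, ← e2]
      simp only [commutatorElement_def]
      group
    have e4 : ⁅a * r, a' * r'⁆ = ⁅r, r'⁆ := by
      rw [comm_mul_left, comm_mul_right, comm_mul_right]
      have f1 : ⁅r, a'⁆ = 1 := commutatorElement_eq_one_iff_commute.mpr c2
      have f2 : ⁅a, a'⁆ = 1 := commutatorElement_eq_one_iff_commute.mpr c5
      have f3 : ⁅a, r'⁆ = 1 := commutatorElement_eq_one_iff_commute.mpr c3.symm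
      rw [f1, f2, f3]
      have c6 : Commute a' ⁅r, r'⁆ := by
        rw [commutatorElement_def]
        exact (((c2.symm.mul_right c4.symm).mul_right c2.symm.inv_right).mul_right
          c4.symm.inv_right)
      have c7 : Commute a ⁅r, r'⁆ := by
        rw [commutatorElement_def]
        exact (((c1.symm.mul_right c3.symm).mul_right c1.symm.inv_right).mul_right
          c3.symm.inv_right)
      rw [c6.eq, mul_assoc _ a', mul_inv_cancel, mul_one, one_mul, c7.eq, mul_assoc _ a,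
        mul_inv_cancel]
      group
    rw [e4] at e3
    have e5 := congrArg (fun z => z * k) e3
    simp only [inv_mul_cancel_right] at e5
    exact e5.symm

end crit

end E1ad.helper11
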